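import Pool.Agent.X195.NR2

/-!
For all `1 ≤ p ≤ r` such that `[r]^(p)` does not have the fixed intersection property there is an
`r`-uniform hypergraph with (a) and (b).
-/
open Finset

set_option linter.unusedVariables false
set_option linter.style.haveILetI false

namespace Pool.Agent.Results.MP_2e96e9_co.WitnessHypergraphs

open Pool.Agent.X195.NR

/-- `[n]^(p)` has the fixed intersection property -/
def FixedIntersection (n p : ℕ) : Prop :=
  ∀ f : Sub n p → Sub n p, (∃ x y, f x ≠ f y) →
    ∃ x y, x ≠ y ∧ ((f x).1 ∩ (f y).1).card = (x.1 ∩ y.1).card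

/-- `D` lists the vertices of every edge without repetition -/
def IsOrientation {V : Type} [DecidableEq V] (r : ℕ) (E : Finset (Finset V))
    (D : Finset V → Fin r → V) : Prop :=
  ∀ e ∈ E, Function.Injective (D e) ∧ univ.image (D e) = e

/-- the `I`-degree of `A` -/
def deg {V : Type} [DecidableEq V] {r : ℕ} (E : Finset (Finset V)) (D : Finset V → Fin r → V)
    (I : Finset (Fin r)) (A : Finset V) : ℕ :=
  (E.filter (fun e => I.image (D e) = A)).card

/-- `W` is a partition of the `p`-subsets of `V` into `R` nonempty classes -/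
def IsPartition {V : Type} (p R : ℕ) (W : Fin R → Finset (Finset V)) : Prop :=
  (∀ i, (W i).Nonempty) ∧ (∀ i j, i ≠ j → Disjoint (W i) (W j)) ∧
    ∀ A : Finset V, A.card = p ↔ ∃ i, A ∈ W i

theorem result (p r : ℕ) (hp : 1 ≤ p) (hpr : p ≤ r) (hfix : ¬ FixedIntersection r p) :
    ∃ (V : Type) (_ : Fintype V) (_ : DecidableEq V) (E : Finset (Finset V)),
      (∀ e ∈ E, e.card = r) ∧
      (∃ W : Fin (r.choose p) → Finset (Finset V), IsPartition p (r.choose p) W ∧
        ∀ e ∈ E, ∀ i, ¬ powersetCard p e ⊆ W i) ∧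
      ∀ D : Finset V → Fin r → V, IsOrientation r E D →
        ∃ A : Finset V, A.card = p ∧ ∀ I : Finset (Fin r), I.card = p → 0 < deg E D I A := by
  classical
  unfold FixedIntersection at hfix
  push Not at hfix
  obtain ⟨g0, hne, hg0⟩ := hfix
  haveI : Nonempty (Sub r p) := ⟨hne.choose⟩
  haveI : Finite (Sub r p → Sub r p) := inferInstance
  haveI : Fintype ((Sub r p → Sub r p) × Fin r) := Fintype.ofFinite _
  set ε : (Sub r p → Sub r p) × Fin r ≃ Fin (Fintype.card ((Sub r p → Sub r p) × Fin r)) :=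
    Fintype.equivFin _ with hε
  haveI : Finite (Sub r p) := inferInstance
  obtain ⟨V, hV, c, hc⟩ := typed_ramsey _ p hp (Sub r p) (Sub r p) (typ ε)
  haveI : Fintype V := Fintype.ofFinite V
  have hcardS : Fintype.card (Sub r p) = r.choose p := card_Sub r p
  set η : Sub r p ≃ Fin (r.choose p) := Fintype.equivFinOfCardEq hcardS with hη
  refine ⟨V, inferInstance, inferInstance,
    univ.filter (fun e : Finset V => e.card = r ∧ ∃ A ⊆ e, ∃ A' ⊆ e, A.card = p ∧ A'.card = p ∧
      c A ≠ c A'), ?_, ?_, ?_⟩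
  · intro e he
    exact (mem_filter.1 he).2.1
  · refine ⟨fun i => univ.filter (fun A : Finset V => A.card = p ∧ η (c A) = i), ⟨?_, ?_, ?_⟩, ?_⟩
    · intro i
      obtain ⟨e, g, heg⟩ := hc (fun _ => Classical.arbitrary _)
      have x : Sub r p := Classical.arbitrary _
      have h1 := heg (x.1.map (pat ε (fun _ => η.symm i))) (by rw [card_map, x.2])
      rw [typ_pat hp] at h1
      refine ⟨(x.1.map (pat ε (fun _ => η.symm i))).map e, mem_filter.2 ⟨mem_univ _, ?_, ?_⟩⟩
      · rw [card_map, card_map, x.2]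
      · rw [h1.1, Equiv.apply_symm_apply]
    · intro i j hij
      rw [disjoint_filter]
      rintro A _ ⟨_, h1⟩ ⟨_, h2⟩
      exact hij (h1.symm.trans h2)
    · intro A
      constructor
      · intro hA
        exact ⟨η (c A), mem_filter.2 ⟨mem_univ _, hA, rfl⟩⟩
      · rintro ⟨i, hi⟩
        exact (mem_filter.1 hi).2.1
    · intro e he i hsub
      obtain ⟨_, _, A, hA, A', hA', hAc, hAc', hcc⟩ := mem_filter.1 he
      have h1 := hsub (mem_powersetCard.2 ⟨hA, hAc⟩)
      have h2 := hsub (mem_powersetCard.2 ⟨hA', hAc'⟩)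
      exact hcc (η.injective ((mem_filter.1 h1).2.2.trans (mem_filter.1 h2).2.2.symm))
  · intro D hD
    by_contra hcon
    push Not at hcon
    have hch : ∀ A : Finset V, ∃ I : Sub r p, A.card = p →
        deg (univ.filter (fun e : Finset V => e.card = r ∧ ∃ A ⊆ e, ∃ A' ⊆ e, A.card = p ∧
          A'.card = p ∧ c A ≠ c A')) D I.1 A = 0 := by
      intro A
      by_cases hA : A.card = p
      · obtain ⟨I, hI, h0⟩ := hcon A hA
        exact ⟨⟨I, hI⟩, fun _ => Nat.le_zero.1 h0⟩
      · exact ⟨Classical.arbitrary _, fun h => absurd h hA⟩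
    choose χ hχ using hch
    obtain ⟨e, g, heg⟩ := hc χ
    apply no_avoid g0 hg0 hne g
    rintro f ⟨x, y, hxy⟩
    set h : Fin r ↪ V := (pat ε f).trans e with hh
    have hmap : ∀ z : Sub r p, (z.1.map (pat ε f)).map e = z.1.map h := fun z => map_map _ _ _
    have hval : ∀ z : Sub r p, c (z.1.map h) = f z ∧ χ (z.1.map h) = g (f z) := by
      intro z
      have h1 := heg (z.1.map (pat ε f)) (by rw [card_map, z.2])
      rw [typ_pat hp, hmap] at h1
      exact h1
    have hedge : univ.map h ∈ univ.filter (fun e : Finset V => e.card = r ∧ ∃ A ⊆ e, ∃ A' ⊆ e,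
        A.card = p ∧ A'.card = p ∧ c A ≠ c A') := by
      refine mem_filter.2 ⟨mem_univ _, by rw [card_map, card_univ, Fintype.card_fin], x.1.map h,
        map_subset_map.2 (subset_univ _), y.1.map h, map_subset_map.2 (subset_univ _), ?_, ?_, ?_⟩
      · rw [card_map, x.2]
      · rw [card_map, y.2]
      · rw [(hval x).1, (hval y).1]
        exact hxy
    obtain ⟨hDinj, hDim⟩ := hD _ hedge
    have hpos : ∀ i : Fin r, ∃ j : Fin r, D (univ.map h) j = h i := by
      intro i
      have h1 : h i ∈ univ.image (D (univ.map h)) := by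
        rw [hDim]
        exact mem_map_of_mem _ (mem_univ _)
      obtain ⟨j, _, hj⟩ := mem_image.1 h1
      exact ⟨j, hj⟩
    choose σ hσ using hpos
    have hσinj : Function.Injective σ := by
      intro i j hij
      apply h.injective
      rw [← hσ i, ← hσ j, hij]
    refine ⟨Equiv.ofBijective σ (Finite.injective_iff_bijective.1 hσinj), fun z hz => ?_⟩
    have h2 : (act (Equiv.ofBijective σ (Finite.injective_iff_bijective.1 hσinj)) z).1.image
        (D (univ.map h)) = z.1.map h := by
      ext v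
      simp only [mem_image, mem_map, act]
      constructor
      · rintro ⟨_, ⟨i, hi, rfl⟩, rfl⟩
        exact ⟨i, hi, (hσ i).symm⟩
      · rintro ⟨i, hi, rfl⟩
        exact ⟨σ i, ⟨i, hi, rfl⟩, hσ i⟩
    have h3 := hχ (z.1.map h) (by rw [card_map, z.2])
    rw [(hval z).2, ← hz] at h3
    have h4 := card_eq_zero.1 h3
    have h5 : univ.map h ∈ (univ.filter (fun e : Finset V => e.card = r ∧ ∃ A ⊆ e, ∃ A' ⊆ e,
        A.card = p ∧ A'.card = p ∧ c A ≠ c A')).filter (fun e =>
        (act (Equiv.ofBijective σ (Finite.injective_iff_bijective.1 hσinj)) z).1.image (D e) =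
          z.1.map h) := mem_filter.2 ⟨hedge, h2⟩
    rw [h4] at h5
    exact absurd h5 (notMem_empty _)

end Pool.Agent.Results.MP_2e96e9_co.WitnessHypergraphs
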